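import Mathlib

set_option autoImplicit false

open scoped commutatorElement

namespace Pool.Agent.Helper62.CP

/-- The lower exponent-`p` central series of `G`: `P_0 = G` and
`P_(i+1) = [P_i, G] P_i^p`, the subgroup generated by the commutators `[x, g]` and the powers `x^p`
for `x` in `P_i` and `g` in `G`. -/
def lowerP (p : ℕ) (G : Type) [Group G] : ℕ → Subgroup G
  | 0 => ⊤
  | i + 1 => ⁅lowerP p G i, (⊤ : Subgroup G)⁆ ⊔
      Subgroup.closure {g | ∃ x ∈ lowerP p G i, x ^ p = g}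

variable {p : ℕ} {G : Type} [Group G]

theorem closure_pow_normal (N : Subgroup G) [hN : N.Normal] :
    (Subgroup.closure {g | ∃ x ∈ N, x ^ p = g}).Normal := by
  constructor
  intro n hn g
  induction hn using Subgroup.closure_induction with
  | mem x hx =>
    obtain ⟨y, hy, rfl⟩ := hx
    apply Subgroup.subset_closure
    exact ⟨g * y * g⁻¹, hN.conj_mem y hy g, by rw [conj_pow]⟩
  | one => simp
  | mul x y _ _ hx hy =>
    have : g * (x * y) * g⁻¹ = (g * x * g⁻¹) * (g * y * g⁻¹) := by group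
    rw [this]
    exact Subgroup.mul_mem _ hx hy
  | inv x _ hx =>
    have : g * x⁻¹ * g⁻¹ = (g * x * g⁻¹)⁻¹ := by group
    rw [this]
    exact Subgroup.inv_mem _ hx

instance lowerP_normal (i : ℕ) : (lowerP p G i).Normal := by
  induction i with
  | zero => exact (inferInstance : (⊤ : Subgroup G).Normal)
  | succ i ih =>
    have := ih
    have h1 : (⁅lowerP p G i, (⊤ : Subgroup G)⁆).Normal := inferInstance
    have h2 : (Subgroup.closure {g | ∃ x ∈ lowerP p G i, x ^ p = g}).Normal :=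
      closure_pow_normal _
    exact Subgroup.sup_normal _ _

theorem comm_mem {i : ℕ} {x : G} (hx : x ∈ lowerP p G i) (g : G) : ⁅x, g⁆ ∈ lowerP p G (i + 1) :=
  (le_sup_left : _ ≤ lowerP p G (i + 1)) (Subgroup.commutator_mem_commutator hx (Subgroup.mem_top g))

theorem pow_mem {i : ℕ} {x : G} (hx : x ∈ lowerP p G i) : x ^ p ∈ lowerP p G (i + 1) :=
  (le_sup_right : _ ≤ lowerP p G (i + 1)) (Subgroup.subset_closure ⟨x, hx, rfl⟩)

theorem succ_le (i : ℕ) : lowerP p G (i + 1) ≤ lowerP p G i := by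
  change ⁅lowerP p G i, (⊤ : Subgroup G)⁆ ⊔
      Subgroup.closure {g | ∃ x ∈ lowerP p G i, x ^ p = g} ≤ _
  refine sup_le (Subgroup.commutator_le_left _ _) ?_
  rw [Subgroup.closure_le]
  rintro g ⟨x, hx, rfl⟩
  exact Subgroup.pow_mem _ hx p

theorem anti {i j : ℕ} (h : i ≤ j) : lowerP p G j ≤ lowerP p G i := by
  induction h with
  | refl => exact le_rfl
  | step _ ih => exact (succ_le _).trans ih

theorem powk_mem {i : ℕ} {x : G} (hx : x ∈ lowerP p G i) (k : ℕ) :
    x ^ p ^ k ∈ lowerP p G (i + k) := by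
  induction k with
  | zero => simpa using hx
  | succ k ih =>
    rw [pow_succ, pow_mul]
    exact pow_mem ih

/-- class two power formula -/
theorem mul_pow_class_two {a b z : G} (hz : b * a = z * a * b) (hza : z * a = a * z)
    (hzb : z * b = b * z) (n : ℕ) : (a * b) ^ n = a ^ n * b ^ n * z ^ (n.choose 2) := by
  have hca : Commute z a := hza
  have hcb : Commute z b := hzb
  have hbn : ∀ n : ℕ, b ^ n * a = z ^ n * a * b ^ n := by
    intro n
    induction n with
    | zero => simp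
    | succ n ih =>
      have h1 : b * z ^ n = z ^ n * b := (hcb.pow_left n).eq.symm
      calc b ^ (n + 1) * a = b * (b ^ n * a) := by rw [pow_succ', mul_assoc]
        _ = b * (z ^ n * a * b ^ n) := by rw [ih]
        _ = (b * z ^ n) * a * b ^ n := by simp only [mul_assoc]
        _ = z ^ n * (b * a) * b ^ n := by rw [h1]; simp only [mul_assoc]
        _ = z ^ n * (z * a * b) * b ^ n := by rw [hz]
        _ = z ^ (n + 1) * a * b ^ (n + 1) := by rw [pow_succ z, pow_succ' b]; simp only [mul_assoc]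
  induction n with
  | zero => simp
  | succ n ih =>
    have h2 : Nat.choose (n + 1) 2 = n + Nat.choose n 2 := by
      rw [Nat.choose_succ_succ' n 1, Nat.choose_one_right]
    have h3 : z ^ (n.choose 2) * (a * b) = (a * b) * z ^ (n.choose 2) :=
      ((hca.mul_right hcb).pow_left _).eq
    have h4 : a ^ n * z ^ n = z ^ n * a ^ n := ((hca.pow_left n).pow_right n).eq.symm
    have h5 : (a ^ (n + 1) * b ^ (n + 1)) * z ^ n = z ^ n * (a ^ (n + 1) * b ^ (n + 1)) :=
      (((hca.pow_right (n+1)).mul_right (hcb.pow_right (n+1))).pow_left n).eq.symm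
    calc (a * b) ^ (n + 1) = (a * b) ^ n * (a * b) := pow_succ _ _
      _ = a ^ n * b ^ n * (z ^ (n.choose 2) * (a * b)) := by rw [ih, mul_assoc]
      _ = a ^ n * (b ^ n * a) * b * z ^ (n.choose 2) := by rw [h3]; simp only [mul_assoc]
      _ = a ^ n * (z ^ n * a * b ^ n) * b * z ^ (n.choose 2) := by rw [hbn]
      _ = (a ^ n * z ^ n) * a * b ^ n * b * z ^ (n.choose 2) := by simp only [mul_assoc]
      _ = z ^ n * (a ^ (n + 1) * b ^ (n + 1)) * z ^ (n.choose 2) := by
          rw [h4, pow_succ a, pow_succ b]; simp only [mul_assoc]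
      _ = (a ^ (n + 1) * b ^ (n + 1)) * (z ^ n * z ^ (n.choose 2)) := by
          rw [← h5]; simp only [mul_assoc]
      _ = _ := by rw [← pow_add, ← h2]

/-- The hypothesis under which taking `p`-th powers is additive along the series. -/
def Good (p : ℕ) (G : Type) [Group G] : Prop :=
  ∀ i : ℕ, ∀ d ∈ lowerP p G i, ∀ c : G, ⁅d, c⁆ ^ (p.choose 2) ∈ lowerP p G (i + 2)

theorem good_of_odd (hp : p.Prime) (hp2 : p ≠ 2) : Good p G := by
  intro i d hd c
  have h1 : ⁅d, c⁆ ^ p ∈ lowerP p G (i + 2) := pow_mem (comm_mem hd c)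
  have h2 : p ∣ p.choose 2 := hp.dvd_choose_self (by norm_num) (lt_of_le_of_ne hp.two_le (Ne.symm hp2))
  obtain ⟨m, hm⟩ := h2
  rw [hm, pow_mul]
  exact Subgroup.pow_mem _ h1 m

theorem good_of_two (h : ∀ i : ℕ, ∀ d ∈ lowerP p G i, ∀ c : G, ⁅d, c⁆ ∈ lowerP p G (i + 2)) :
    Good p G := fun i d hd c => Subgroup.pow_mem _ (h i d hd c) _

/-- one step -/
theorem step (hgood : Good p G) {i : ℕ} {d : G} (hd : d ∈ lowerP p G i) (c : G) :
    (((c * d) ^ p : G) : G ⧸ lowerP p G (i + 2)) = ((c ^ p * d ^ p : G) : G ⧸ lowerP p G (i + 2)) := by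
  have hz : (⁅d, c⁆ : G) ∈ lowerP p G (i + 1) := comm_mem hd c
  have hcen : ∀ g : G, ((⁅d, c⁆ * g : G) : G ⧸ lowerP p G (i + 2)) = ((g * ⁅d, c⁆ : G) : _) := by
    intro g
    have h1 : ⁅(⁅d, c⁆ : G), g⁆ ∈ lowerP p G (i + 2) := comm_mem hz g
    have h2 : ⁅d, c⁆ * g = ⁅(⁅d, c⁆ : G), g⁆ * (g * ⁅d, c⁆) := by
      simp only [commutatorElement_def]; group
    rw [h2, QuotientGroup.mk_mul, (QuotientGroup.eq_one_iff _).2 h1, one_mul]
  have h1 := mul_pow_class_two (a := (c : G ⧸ lowerP p G (i + 2))) (b := (d : G ⧸ lowerP p G (i + 2)))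
    (z := ((⁅d, c⁆ : G) : G ⧸ lowerP p G (i + 2))) (by
      rw [← QuotientGroup.mk_mul, ← QuotientGroup.mk_mul, ← QuotientGroup.mk_mul]
      congr 1
      simp only [commutatorElement_def]; group)
    (by rw [← QuotientGroup.mk_mul, ← QuotientGroup.mk_mul]; exact hcen c)
    (by rw [← QuotientGroup.mk_mul, ← QuotientGroup.mk_mul]; exact hcen d) p
  have h2 : ((⁅d, c⁆ : G) : G ⧸ lowerP p G (i + 2)) ^ (p.choose 2) = 1 := by
    rw [← QuotientGroup.mk_pow]
    exact (QuotientGroup.eq_one_iff _).2 (hgood i d hd c)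
  rw [h2, mul_one] at h1
  rw [QuotientGroup.mk_pow, QuotientGroup.mk_mul, h1, QuotientGroup.mk_mul, QuotientGroup.mk_pow,
    QuotientGroup.mk_pow]

theorem mk_anti {i j : ℕ} (h : i ≤ j) {x y : G}
    (hxy : (x : G ⧸ lowerP p G j) = (y : G ⧸ lowerP p G j)) :
    (x : G ⧸ lowerP p G i) = (y : G ⧸ lowerP p G i) := by
  rw [QuotientGroup.eq] at hxy ⊢
  exact anti h hxy

/-- many steps -/
theorem steps (hgood : Good p G) (k j : ℕ) (a : G) {b : G} (hb : b ∈ lowerP p G j) :
    (((a * b) ^ p ^ k : G) : G ⧸ lowerP p G (j + k + 1)) =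
      ((a ^ p ^ k * b ^ p ^ k : G) : G ⧸ lowerP p G (j + k + 1)) := by
  induction k with
  | zero => simp
  | succ k ih =>
    have hB : b ^ p ^ k ∈ lowerP p G (j + k) := powk_mem hb k
    have ht : (a ^ p ^ k * b ^ p ^ k)⁻¹ * (a * b) ^ p ^ k ∈ lowerP p G (j + k + 1) :=
      QuotientGroup.eq.1 ih.symm
    have h1 : (a * b) ^ p ^ k = (a ^ p ^ k * b ^ p ^ k) *
      ((a ^ p ^ k * b ^ p ^ k)⁻¹ * (a * b) ^ p ^ k) := by group
    have h2 := step hgood ht (a ^ p ^ k * b ^ p ^ k)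
    rw [← h1] at h2
    have h3 := step hgood hB (a ^ p ^ k)
    have h4 : (((a ^ p ^ k * b ^ p ^ k)⁻¹ * (a * b) ^ p ^ k) ^ p : G) ∈
      lowerP p G (j + (k + 1) + 1) := pow_mem ht
    have h5 := mk_anti (p := p) (G := G) (i := j + (k + 1) + 1) (j := j + k + 1 + 2) (by omega) h2
    have h6 : (((a ^ p ^ k * b ^ p ^ k) ^ p : G) : G ⧸ lowerP p G (j + (k + 1) + 1)) =
      (((a ^ p ^ k) ^ p * (b ^ p ^ k) ^ p : G) : G ⧸ lowerP p G (j + (k + 1) + 1)) := h3
    rw [QuotientGroup.mk_mul, (QuotientGroup.eq_one_iff _).2 h4, mul_one] at h5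
    rw [pow_succ, pow_mul, pow_mul, pow_mul, h5, h6]

end Pool.Agent.Helper62.CP
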