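import Mathlib
import Pool.Agent.Helper62.CP.Ser

set_option autoImplicit false

open scoped commutatorElement

namespace Pool.Agent.Helper62.CP

/-- `G` is powerful: every commutator is a product of `p`-th powers, for `p = 2` of fourth
powers. -/
def Powerful (p : ℕ) (G : Type) [Group G] : Prop :=
  commutator G ≤ Subgroup.closure {g | ∃ x : G, x ^ (if p = 2 then 4 else p) = g}

variable {p : ℕ} {G : Type} [Group G]

theorem mem_cen {K : Subgroup G} [K.Normal] {x : G} :
    x ∈ (Subgroup.center (G ⧸ K)).comap (QuotientGroup.mk' K) ↔ ∀ g : G, ⁅x, g⁆ ∈ K := by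
  rw [Subgroup.mem_comap, Subgroup.mem_center_iff]
  constructor
  · intro h g
    have h1 := h (QuotientGroup.mk' K g)
    rw [← QuotientGroup.eq_one_iff]
    have h2 : ((⁅x, g⁆ : G) : G ⧸ K) = ⁅(QuotientGroup.mk' K x), (QuotientGroup.mk' K g)⁆ := rfl
    rw [h2, commutatorElement_eq_one_iff_mul_comm]
    exact h1.symm
  · intro h q
    obtain ⟨g, rfl⟩ := QuotientGroup.mk'_surjective K q
    have h1 := h g
    rw [← QuotientGroup.eq_one_iff] at h1
    have h2 : ((⁅x, g⁆ : G) : G ⧸ K) = ⁅(QuotientGroup.mk' K x), (QuotientGroup.mk' K g)⁆ := rfl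
    rw [h2, commutatorElement_eq_one_iff_mul_comm] at h1
    exact h1.symm

/-- conjugate written with a commutator -/
theorem conj_eq (x g : G) : g * x * g⁻¹ = x * (x⁻¹ * (g * x * g⁻¹ * x⁻¹) * x) := by group

theorem comm_of_conj {K : Subgroup G} [hK : K.Normal] {x g : G} {n : ℕ}
    (h : (((g * x * g⁻¹) ^ n : G) : G ⧸ K) = ((x ^ n : G) : G ⧸ K)) : ⁅x ^ n, g⁆ ∈ K := by
  have h1 : ⁅x ^ n, g⁆ = x ^ n * ((g * x * g⁻¹) ^ n)⁻¹ := by
    rw [commutatorElement_def, conj_pow]; group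
  rw [h1, ← QuotientGroup.eq_one_iff, QuotientGroup.mk_mul, QuotientGroup.mk_inv, h,
    mul_inv_cancel]

theorem d_mem {i : ℕ} {x : G} (hx : ∀ g : G, ⁅x, g⁆ ∈ lowerP p G i) (g : G) :
    x⁻¹ * (g * x * g⁻¹ * x⁻¹) * x ∈ lowerP p G i := by
  have h1 : g * x * g⁻¹ * x⁻¹ = (⁅x, g⁆)⁻¹ := by rw [commutatorElement_def]; group
  rw [h1]
  have := (lowerP_normal (p := p) (G := G) i).conj_mem _ ((lowerP p G i).inv_mem (hx g)) x⁻¹
  simpa using this

/-- `p`-th powers of elements central modulo `P_m` are central modulo `P_(m+1)`. -/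
theorem pow_cen {m : ℕ} {x : G} (hx : ∀ g : G, ⁅x, g⁆ ∈ lowerP p G m) (g : G) :
    ⁅x ^ p, g⁆ ∈ lowerP p G (m + 1) := by
  apply comm_of_conj
  set d := x⁻¹ * (g * x * g⁻¹ * x⁻¹) * x with hd
  have hdm : d ∈ lowerP p G m := d_mem hx g
  rw [conj_eq x g, ← hd]
  have hc : Commute (x : G ⧸ lowerP p G (m + 1)) (d : G ⧸ lowerP p G (m + 1)) := by
    have h1 : ⁅d, x⁆ ∈ lowerP p G (m + 1) := comm_mem hdm x
    have h2 : d * x = ⁅d, x⁆ * (x * d) := by rw [commutatorElement_def]; group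
    have h3 : ((⁅d, x⁆ * (x * d) : G) : G ⧸ lowerP p G (m + 1)) = ((x * d : G) : _) := by
      rw [QuotientGroup.mk_mul, (QuotientGroup.eq_one_iff _).2 h1, one_mul]
    change (x : G ⧸ lowerP p G (m + 1)) * d = d * x
    rw [← QuotientGroup.mk_mul, ← QuotientGroup.mk_mul, h2, h3]
  have h4 : (d : G ⧸ lowerP p G (m + 1)) ^ p = 1 := by
    rw [← QuotientGroup.mk_pow]
    exact (QuotientGroup.eq_one_iff _).2 (pow_mem hdm)
  rw [QuotientGroup.mk_pow, QuotientGroup.mk_mul, hc.mul_pow, h4, mul_one, QuotientGroup.mk_pow]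

/-- powerful `2`-groups: `[P_i, G] ≤ P_(i+2)` -/
theorem two_comm (h : Powerful 2 G) (i : ℕ) : ∀ d ∈ lowerP 2 G i, ∀ c : G,
    ⁅d, c⁆ ∈ lowerP 2 G (i + 2) := by
  induction i with
  | zero =>
    intro d _ c
    have h1 : ⁅d, c⁆ ∈ commutator G := by
      rw [commutator_def]
      exact Subgroup.commutator_mem_commutator (Subgroup.mem_top d) (Subgroup.mem_top c)
    have h2 := h h1
    have h3 : Subgroup.closure {g : G | ∃ x : G, x ^ (if (2:ℕ) = 2 then 4 else 2) = g} ≤
        lowerP 2 G 2 := by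
      rw [Subgroup.closure_le]
      rintro g ⟨x, rfl⟩
      have h4 : x ^ 2 ^ 2 ∈ lowerP 2 G (0 + 2) := powk_mem (p := 2) (i := 0) (Subgroup.mem_top x) 2
      simpa using h4
    exact h3 h2
  | succ i ih =>
    intro d hd
    rw [← mem_cen]
    revert d
    change lowerP 2 G (i + 1) ≤ _
    change ⁅lowerP 2 G i, (⊤ : Subgroup G)⁆ ⊔
      Subgroup.closure {g | ∃ x ∈ lowerP 2 G i, x ^ 2 = g} ≤ _
    refine sup_le ?_ ?_
    · rw [Subgroup.commutator_le]
      intro a ha b _
      rw [mem_cen]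
      exact comm_mem (ih a ha b)
    · rw [Subgroup.closure_le]
      rintro _ ⟨x, hx, rfl⟩
      rw [SetLike.mem_coe, mem_cen]
      exact pow_cen (p := 2) (ih x hx)

/-- the subgroup `P_i^p P_(i+2)` -/
def KK (p : ℕ) (G : Type) [Group G] (i : ℕ) : Subgroup G :=
  Subgroup.closure {g | ∃ x ∈ lowerP p G i, x ^ p = g} ⊔ lowerP p G (i + 2)

instance KK_normal (i : ℕ) : (KK p G i).Normal := by
  have h2 : (Subgroup.closure {g | ∃ x ∈ lowerP p G i, x ^ p = g}).Normal := closure_pow_normal _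
  exact Subgroup.sup_normal _ _

theorem pow_mem_KK {i : ℕ} {x : G} (hx : x ∈ lowerP p G i) : x ^ p ∈ KK p G i :=
  (le_sup_left : _ ≤ KK p G i) (Subgroup.subset_closure ⟨x, hx, rfl⟩)

theorem le_KK (i : ℕ) : lowerP p G (i + 2) ≤ KK p G i := le_sup_right

theorem lowerP_le_KK {i : ℕ} (h : ∀ d ∈ lowerP p G i, ∀ c : G, ⁅d, c⁆ ∈ KK p G i) :
    lowerP p G (i + 1) ≤ KK p G i := by
  change ⁅lowerP p G i, (⊤ : Subgroup G)⁆ ⊔
      Subgroup.closure {g | ∃ x ∈ lowerP p G i, x ^ p = g} ≤ _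
  refine sup_le ?_ le_sup_left
  rw [Subgroup.commutator_le]
  intro a ha b _
  exact h a ha b

/-- powerful `p`-groups, `p` odd: `[P_i, G] ≤ P_i^p P_(i+2)` -/
theorem odd_comm (hp2 : p ≠ 2) (hgood : Good p G) (h : Powerful p G) (i : ℕ) :
    ∀ d ∈ lowerP p G i, ∀ c : G, ⁅d, c⁆ ∈ KK p G i := by
  induction i with
  | zero =>
    intro d _ c
    have h1 : ⁅d, c⁆ ∈ commutator G := by
      rw [commutator_def]
      exact Subgroup.commutator_mem_commutator (Subgroup.mem_top d) (Subgroup.mem_top c)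
    have h2 := h h1
    rw [if_neg hp2] at h2
    have h3 : Subgroup.closure {g : G | ∃ x : G, x ^ p = g} ≤ KK p G 0 := by
      rw [Subgroup.closure_le]
      rintro g ⟨x, rfl⟩
      exact pow_mem_KK (Subgroup.mem_top x)
    exact h3 h2
  | succ i ih =>
    intro d hd
    have hle := lowerP_le_KK ih
    rw [← mem_cen]
    have hd' := hle hd
    revert hd'
    suffices hs : KK p G i ≤ (Subgroup.center (G ⧸ KK p G (i + 1))).comap
        (QuotientGroup.mk' (KK p G (i + 1))) from fun h => hs h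
    change Subgroup.closure {g | ∃ x ∈ lowerP p G i, x ^ p = g} ⊔ lowerP p G (i + 2) ≤ _
    refine sup_le ?_ ?_
    · rw [Subgroup.closure_le]
      rintro _ ⟨x, hx, rfl⟩
      rw [SetLike.mem_coe, mem_cen]
      intro g
      apply comm_of_conj
      set d := x⁻¹ * (g * x * g⁻¹ * x⁻¹) * x with hd
      have hdm : d ∈ lowerP p G (i + 1) := d_mem (comm_mem hx) g
      have h1 := step hgood hdm x
      rw [conj_eq x g, ← hd]
      rw [QuotientGroup.eq] at h1
      have h2 : (((x * d) ^ p : G) : G ⧸ KK p G (i + 1)) = ((x ^ p * d ^ p : G) : _) := by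
        rw [QuotientGroup.eq]
        exact le_KK (i + 1) h1
      rw [h2, QuotientGroup.mk_mul, (QuotientGroup.eq_one_iff _).2 (pow_mem_KK hdm), mul_one]
    · intro x hx
      rw [mem_cen]
      intro g
      exact le_KK (i + 1) (comm_mem hx g)

theorem powerful_good (hp : p.Prime) (h : Powerful p G) : Good p G := by
  by_cases hp2 : p = 2
  · subst hp2
    exact good_of_two (two_comm h)
  · exact good_of_odd hp hp2

theorem powerful_le (hp : p.Prime) (h : Powerful p G) (i : ℕ) :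
    lowerP p G (i + 1) ≤ KK p G i := by
  apply lowerP_le_KK
  by_cases hp2 : p = 2
  · subst hp2
    intro d hd c
    exact le_KK i (two_comm h i d hd c)
  · exact odd_comm hp2 (good_of_odd hp hp2) h i

/-- every element of `P_i` is a `p^i`-th power modulo `P_(i+1)` -/
theorem exists_pow (hgood : Good p G) (hle : ∀ i, lowerP p G (i + 1) ≤ KK p G i) (i : ℕ) :
    ∀ g ∈ lowerP p G i, ∃ y : G, ((y ^ p ^ i : G) : G ⧸ lowerP p G (i + 1)) = (g : _) := by
  induction i with
  | zero => intro g _; exact ⟨g, by simp⟩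
  | succ i ih =>
    let ψ : G →* G ⧸ lowerP p G (i + 1 + 1) := MonoidHom.mk'
      (fun y => ((y ^ p ^ (i + 1) : G) : G ⧸ lowerP p G (i + 1 + 1))) (by
        intro a b
        have h1 := steps hgood (i + 1) 0 a (b := b) (Subgroup.mem_top b)
        have h2 := mk_anti (p := p) (G := G) (i := i + 1 + 1) (j := 0 + (i + 1) + 1) (by omega) h1
        rw [h2, QuotientGroup.mk_mul])
    have hψ : ∀ y, ψ y = ((y ^ p ^ (i + 1) : G) : G ⧸ lowerP p G (i + 1 + 1)) := fun _ => rfl
    have hL : KK p G i ≤ ψ.range.comap (QuotientGroup.mk' _) := by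
      change Subgroup.closure {g | ∃ x ∈ lowerP p G i, x ^ p = g} ⊔ lowerP p G (i + 2) ≤ _
      refine sup_le ?_ ?_
      · rw [Subgroup.closure_le]
        rintro _ ⟨x, hx, rfl⟩
        obtain ⟨y, hy⟩ := ih x hx
        rw [QuotientGroup.eq] at hy
        have h1 := step hgood hy (y ^ p ^ i)
        have h2 : y ^ p ^ i * ((y ^ p ^ i)⁻¹ * x) = x := by group
        rw [h2] at h1
        have h3 := mk_anti (p := p) (G := G) (i := i + 1 + 1) (j := i + 1 + 2) (by omega) h1
        rw [QuotientGroup.mk_mul, (QuotientGroup.eq_one_iff _).2 (pow_mem hy), mul_one] at h3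
        refine ⟨y, ?_⟩
        change ψ y = ((x ^ p : G) : G ⧸ lowerP p G (i + 1 + 1))
        rw [hψ, h3, pow_succ, pow_mul]
      · intro x hx
        refine ⟨1, ?_⟩
        rw [map_one]
        exact ((QuotientGroup.eq_one_iff _).2 hx).symm
    intro g hg
    obtain ⟨y, hy⟩ := hL (hle i hg)
    exact ⟨y, hy⟩

end Pool.Agent.Helper62.CP
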