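import Mathlib
import Pool.Agent.Helper77.CDReg
import Pool.Agent.Helper62.CP.Ser
import Pool.Agent.Helper62.CP.Pw

set_option autoImplicit false

open scoped commutatorElement

namespace Pool.Agent.Helper62.CP

open Pool.Agent.Helper77.CD

theorem map_le {p : ℕ} {G H : Type} [Group G] [Group H] (f : G →* H) (i : ℕ) :
    lowerP p G i ≤ (lowerP p H i).comap f := by
  induction i with
  | zero => intro x _; exact Subgroup.mem_top _
  | succ i ih =>
    change ⁅lowerP p G i, (⊤ : Subgroup G)⁆ ⊔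
      Subgroup.closure {g | ∃ x ∈ lowerP p G i, x ^ p = g} ≤ _
    refine sup_le ?_ ?_
    · rw [Subgroup.commutator_le]
      intro a ha b _
      rw [Subgroup.mem_comap, map_commutatorElement]
      exact comm_mem (ih ha) _
    · rw [Subgroup.closure_le]
      rintro _ ⟨x, hx, rfl⟩
      rw [SetLike.mem_coe, Subgroup.mem_comap, map_pow]
      exact pow_mem (ih hx)

theorem bot_of_le_center {p : ℕ} {G : Type} [Group G] [Finite G] [Fact p.Prime]
    (hG : IsPGroup p G) {e : ℕ} (he : lowerP p G e ≤ Subgroup.center G) :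
    ∃ m, lowerP p G m = ⊥ := by
  have hk : ∀ k, ∀ x ∈ lowerP p G (e + k), ∃ w ∈ Subgroup.center G, w ^ p ^ k = x := by
    intro k
    induction k with
    | zero => intro x hx; exact ⟨x, he hx, by simp⟩
    | succ k ih =>
      intro x hx
      have hx' : x ∈ ⁅lowerP p G (e + k), (⊤ : Subgroup G)⁆ ⊔
        Subgroup.closure {g | ∃ x ∈ lowerP p G (e + k), x ^ p = g} := hx
      let T : Subgroup G :=
        { carrier := {x | ∃ w ∈ Subgroup.center G, w ^ p ^ (k + 1) = x}
          one_mem' := ⟨1, Subgroup.one_mem _, one_pow _⟩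
          mul_mem' := by
            rintro _ _ ⟨a, ha, rfl⟩ ⟨b, hb, rfl⟩
            have hab : Commute a b := (Subgroup.mem_center_iff.1 ha b).symm
            exact ⟨a * b, Subgroup.mul_mem _ ha hb, hab.mul_pow _⟩
          inv_mem' := by
            rintro _ ⟨a, ha, rfl⟩
            exact ⟨a⁻¹, Subgroup.inv_mem _ ha, inv_pow a _⟩ }
      have h1 : ⁅lowerP p G (e + k), (⊤ : Subgroup G)⁆ ⊔
          Subgroup.closure {g | ∃ x ∈ lowerP p G (e + k), x ^ p = g} ≤ T := by
        refine sup_le ?_ ?_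
        · rw [Subgroup.commutator_le]
          intro a ha b _
          have h2 : a ∈ Subgroup.center G := he (anti (Nat.le_add_right e k) ha)
          have h3 : ⁅a, b⁆ = 1 := by
            rw [commutatorElement_eq_one_iff_mul_comm]
            exact (Subgroup.mem_center_iff.1 h2 b).symm
          rw [h3]
          exact Subgroup.one_mem _
        · rw [Subgroup.closure_le]
          rintro _ ⟨y, hy, rfl⟩
          obtain ⟨w, hw, rfl⟩ := ih y hy
          refine ⟨w, hw, ?_⟩
          rw [pow_succ, pow_mul]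
      exact h1 hx'
  obtain ⟨n, hn⟩ := (IsPGroup.iff_card.1 hG)
  refine ⟨e + n, ?_⟩
  rw [eq_bot_iff]
  intro x hx
  obtain ⟨w, -, rfl⟩ := hk n x hx
  rw [← hn, Subgroup.mem_bot]
  exact pow_card_eq_one'

/-- The lower exponent-`p` central series of a finite `p`-group ends at the trivial group. -/
theorem exists_bot {p : ℕ} [hp : Fact p.Prime] (n : ℕ) : ∀ (G : Type) [Group G] [Finite G],
    Nat.card G ≤ n → IsPGroup p G → ∃ e, lowerP p G e = ⊥ := by
  induction n with
  | zero =>
    intro G _ _ hc _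
    have : 0 < Nat.card G := Nat.card_pos
    omega
  | succ n ih =>
    intro G _ _ hc hG
    rcases subsingleton_or_nontrivial G with hs | hs
    · exact ⟨0, Subsingleton.elim _ _⟩
    · have hz : Nontrivial (Subgroup.center G) := hG.center_nontrivial
      have h1 : Nat.card (G ⧸ Subgroup.center G) < Nat.card G := by
        have h2 := Subgroup.card_eq_card_quotient_mul_card_subgroup (Subgroup.center G)
        have h3 : 1 < Nat.card (Subgroup.center G) := Finite.one_lt_card
        have h4 : 0 < Nat.card (G ⧸ Subgroup.center G) := Nat.card_pos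
        rw [h2]
        nlinarith
      obtain ⟨e, he⟩ := ih (G ⧸ Subgroup.center G) (by omega) (hG.to_quotient _)
      refine bot_of_le_center hG (e := e) ?_
      intro x hx
      have h5 := map_le (p := p) (QuotientGroup.mk' (Subgroup.center G)) e hx
      rw [Subgroup.mem_comap, he, Subgroup.mem_bot] at h5
      exact (QuotientGroup.eq_one_iff x).1 h5

section Main

variable {G : Type} [Group G] [Finite G] {p : ℕ} [Fact p.Prime]

theorem cyclic_of_good (hG : IsPGroup p G) (hgood : Good p G) {e : ℕ}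
    (he : lowerP p G (e + 1) = ⊥) {y₀ : G} (hy₀ : y₀ ^ p ^ e ≠ 1)
    (hco : IsCoDedekindian G) : IsCyclic G := by
  have hp : p.Prime := Fact.out
  have hp0 : 0 < p := hp.pos
  by_contra hnc
  have hnt : Nontrivial G := by
    by_contra h
    rw [not_nontrivial_iff_subsingleton] at h
    exact hnc isCyclic_of_subsingleton
  obtain ⟨z, -, hzZ, hzo⟩ := exists_central_order hG (N := (⊤ : Subgroup G)) top_ne_bot
  -- `z` lies in every maximal subgroup
  have hzM : ∀ M : Subgroup G, IsCoatom M → z ∈ M := by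
    intro M hM
    by_contra hz
    have hMn := coatom_normal hG hM
    have hMbot : M ≠ ⊥ := by
      rintro rfl
      apply hnc
      have h1 := coatom_card hG hM
      have h2 := Subgroup.card_eq_card_quotient_mul_card_subgroup (⊥ : Subgroup G)
      rw [h1, Subgroup.card_bot, mul_one] at h2
      exact isCyclic_of_prime_card h2
    obtain ⟨m, hmM, hmZ, hmo⟩ := exists_central_order hG hMbot
    have h1 : m ∈ Subgroup.zpowers z := mem_zpowers_of_not_mem hG hco hM hmM hmZ hmo hz
    have h2 : Subgroup.zpowers m = Subgroup.zpowers z := by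
      apply Subgroup.eq_of_le_of_card_ge
      · rw [Subgroup.zpowers_le]; exact h1
      · rw [Nat.card_zpowers, Nat.card_zpowers, hzo, hmo]
    have h3 : z ∈ Subgroup.zpowers m := by rw [h2]; exact Subgroup.mem_zpowers z
    exact hz ((Subgroup.zpowers_le.2 hmM) h3)
  have hzg : ∀ M : Subgroup G, IsCoatom M → ∀ g, g ∉ M → z ∈ Subgroup.zpowers g := fun M hM g hg =>
    mem_zpowers_of_not_mem hG hco hM (hzM M hM) hzZ hzo hg
  -- `P_1` lies in every maximal subgroup
  have hP1 : ∀ M : Subgroup G, IsCoatom M → lowerP p G 1 ≤ M := by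
    intro M hM
    change ⁅lowerP p G 0, (⊤ : Subgroup G)⁆ ⊔
      Subgroup.closure {g | ∃ x ∈ lowerP p G 0, x ^ p = g} ≤ M
    refine sup_le ?_ ?_
    · have := coatom_commutator_le hG hM
      rw [commutator_def] at this
      exact this
    · rw [Subgroup.closure_le]
      rintro _ ⟨x, -, rfl⟩
      exact pow_mem_coatom hG hM x
  -- the power map
  have hadd : ∀ k j : ℕ, j + k = e → ∀ a b : G, b ∈ lowerP p G j →
      (a * b) ^ p ^ k = a ^ p ^ k * b ^ p ^ k := by
    intro k j hjk a b hb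
    have h1 := steps hgood k j a hb
    rw [QuotientGroup.eq, hjk, he, Subgroup.mem_bot, inv_mul_eq_one] at h1
    exact h1
  -- an element of least order outside the Frattini subgroup
  have hne : ∃ n, ∃ g : G, (∃ M : Subgroup G, IsCoatom M ∧ g ∉ M) ∧ orderOf g = n := by
    obtain ⟨M, hM, -⟩ := (eq_top_or_exists_le_coatom (⊥ : Subgroup G)).resolve_left
      top_ne_bot.symm
    have : ∃ g, g ∉ M := by
      by_contra hall
      push Not at hall
      exact hM.1 (eq_top_iff.2 fun x _ => hall x)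
    obtain ⟨g, hg⟩ := this
    exact ⟨_, g, ⟨M, hM, hg⟩, rfl⟩
  classical
  obtain ⟨h, ⟨M, hM, hhM⟩, hho⟩ := Nat.find_spec hne
  have hmin : ∀ g : G, ∀ M' : Subgroup G, IsCoatom M' → g ∉ M' → orderOf h ≤ orderOf g := by
    intro g M' hM' hg
    rw [hho]
    exact Nat.find_min' hne ⟨g, ⟨M', hM', hg⟩, rfl⟩
  have hhtop : Subgroup.zpowers h ≠ ⊤ := by
    intro htop
    exact hnc ⟨h, fun x => (show x ∈ Subgroup.zpowers h by rw [htop]; exact Subgroup.mem_top x)⟩
  obtain ⟨M', hM', hhM'⟩ := (eq_top_or_exists_le_coatom (Subgroup.zpowers h)).resolve_left hhtop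
  -- an element outside `M'` of the largest order
  have hgex : ∃ y, y ∉ M' ∧ y ^ p ^ e ≠ 1 := by
    by_cases hyM : y₀ ∈ M'
    · have hgex : ∃ g, g ∉ M' := by
        by_contra hall
        push Not at hall
        exact hM'.1 (eq_top_iff.2 fun x _ => hall x)
      obtain ⟨g, hg⟩ := hgex
      by_cases hge : g ^ p ^ e = 1
      · refine ⟨g * y₀, fun hmem => hg ?_, ?_⟩
        · have := M'.mul_mem hmem (M'.inv_mem hyM)
          simpa using this
        · rw [hadd e 0 (by omega) g y₀ (Subgroup.mem_top y₀), hge, one_mul]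
          exact hy₀
      · exact ⟨g, hg, hge⟩
    · exact ⟨y₀, hyM, hy₀⟩
  obtain ⟨y, hyM', hye⟩ := hgex
  have hye1 : y ^ p ^ (e + 1) = 1 := by
    have h1 : y ^ p ^ (e + 1) ∈ lowerP p G (0 + (e + 1)) := powk_mem (Subgroup.mem_top y) (e + 1)
    rw [zero_add, he] at h1
    exact Subgroup.mem_bot.1 h1
  have hyo : orderOf y = p ^ (e + 1) := orderOf_eq_prime_pow hye hye1
  have hzh := hzg M hM h hhM
  have hzy := hzg M' hM' y hyM'
  obtain ⟨k, hk⟩ : ∃ a, orderOf h = p ^ (a + 1) := by
    obtain ⟨k, hk⟩ := hG.exists_orderOf_eq_pow h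
    have h1 : p ∣ orderOf h := by rw [← hzo]; exact orderOf_dvd_of_mem_zpowers hzh
    have hk0 : k ≠ 0 := by
      rintro rfl
      rw [hk, pow_zero] at h1
      exact hp.one_lt.ne' (Nat.dvd_one.1 h1)
    obtain ⟨k, rfl⟩ := Nat.exists_eq_succ_of_ne_zero hk0
    exact ⟨k, hk⟩
  have hke : k ≤ e := by
    have h1 := hmin y M' hM' hyM'
    rw [hk, hyo] at h1
    have := (Nat.pow_le_pow_iff_right hp.one_lt).1 h1
    omega
  have h1 : Subgroup.zpowers (h ^ p ^ k) = Subgroup.zpowers (y ^ p ^ e) := by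
    rw [← zpowers_eq_of_mem hzo hk hzh, ← zpowers_eq_of_mem hzo hyo hzy]
  have h2 : h ^ p ^ k ∈ Subgroup.zpowers (y ^ p ^ e) := by
    rw [← h1]; exact Subgroup.mem_zpowers _
  obtain ⟨j, hj⟩ := Subgroup.mem_zpowers_iff.1 h2
  have hhk1 : h ^ p ^ k ≠ 1 := by
    intro h3
    have h4 := orderOf_dvd_of_pow_eq_one h3
    rw [hk] at h4
    have := (Nat.pow_dvd_pow_iff_le_right hp.one_lt).1 h4
    omega
  have hpj : ¬ (p : ℤ) ∣ j := by
    rintro ⟨m, rfl⟩
    apply hhk1
    have h5 : ((y ^ p ^ e) ^ ((p : ℤ) * m)) = ((y ^ p ^ (e + 1)) ^ m) := by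
      rw [zpow_mul, zpow_natCast, ← pow_mul, ← pow_succ]
    rw [← hj, h5, hye1, one_zpow]
  -- the correction
  have hb : (y ^ (-j)) ^ p ^ (e - k) ∈ lowerP p G (e - k) := by
    have := powk_mem (p := p) (i := 0) (Subgroup.mem_top (y ^ (-j))) (e - k)
    rwa [zero_add] at this
  have hmul := hadd k (e - k) (by omega) h _ hb
  have hbk : ((y ^ (-j)) ^ p ^ (e - k)) ^ p ^ k = (h ^ p ^ k)⁻¹ := by
    rw [← pow_mul, ← pow_add, Nat.sub_add_cancel hke, ← hj, ← zpow_natCast (y ^ (-j)), ← zpow_mul,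
      ← zpow_natCast y, ← zpow_mul, ← zpow_neg]
    congr 1
    ring
  rw [hbk, mul_inv_cancel] at hmul
  have hord : orderOf (h * (y ^ (-j)) ^ p ^ (e - k)) ≤ p ^ k :=
    Nat.le_of_dvd (pow_pos hp0 k) (orderOf_dvd_of_pow_eq_one hmul)
  have hlt : p ^ k < orderOf h := by
    rw [hk]; exact Nat.pow_lt_pow_right hp.one_lt (Nat.lt_succ_self k)
  have hout : ∃ M₁ : Subgroup G, IsCoatom M₁ ∧ h * (y ^ (-j)) ^ p ^ (e - k) ∉ M₁ := by
    rcases Nat.lt_or_ge k e with hlt' | hge
    · refine ⟨M, hM, fun hmem => hhM ?_⟩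
      have h3 : (y ^ (-j)) ^ p ^ (e - k) ∈ M :=
        hP1 M hM (anti (show 1 ≤ e - k by omega) hb)
      have := M.mul_mem hmem (M.inv_mem h3)
      simpa using this
    · have hek : e - k = 0 := by omega
      refine ⟨M', hM', fun hmem => ?_⟩
      rw [hek, pow_zero, pow_one] at hmem
      have h3 : h ∈ M' := hhM' (Subgroup.mem_zpowers h)
      have h4 : y ^ (-j) ∈ M' := by
        have := M'.mul_mem (M'.inv_mem h3) hmem
        simpa using this
      have h5 := dvd_of_zpow_mem_coatom hG hM' hyM' h4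
      exact hpj ((Int.dvd_neg).1 h5)
  obtain ⟨M₁, hM₁, hout⟩ := hout
  have := hmin _ M₁ hM₁ hout
  omega

/-- Main theorem. -/
theorem main (hG : IsPGroup p G)
    (h : Powerful p G ∨ (p ≠ 2 ∧ ∃ e : ℕ, lowerP p G (e + 1) = ⊥ ∧ ∃ y : G, y ^ p ^ e ≠ 1)) :
    IsCoDedekindian G ↔ IsCyclic G := by
  have hp : p.Prime := Fact.out
  refine ⟨fun hco => ?_, isCoDedekindian_of_isCyclic⟩
  rcases h with h | ⟨hp2, e, he, y, hy⟩
  · rcases subsingleton_or_nontrivial G with hs | hs
    · exact isCyclic_of_subsingleton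
    · obtain ⟨e, he, hmin⟩ : ∃ e, lowerP p G (e + 1) = ⊥ ∧ lowerP p G e ≠ ⊥ := by
        classical
        have hex := exists_bot (p := p) _ G le_rfl hG
        have h0 : Nat.find hex ≠ 0 := by
          intro h0
          have h1 := Nat.find_spec hex
          rw [h0] at h1
          exact top_ne_bot h1
        obtain ⟨e, he⟩ := Nat.exists_eq_succ_of_ne_zero h0
        refine ⟨e, ?_, ?_⟩
        · have h1 := Nat.find_spec hex
          rw [he] at h1
          exact h1
        · exact Nat.find_min hex (by omega)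
      have hgood := powerful_good hp h
      obtain ⟨⟨g, hg⟩, hg0⟩ := (Subgroup.ne_bot_iff_exists_ne_one).1 hmin
      have hg1 : g ≠ 1 := fun h => hg0 (Subtype.ext h)
      obtain ⟨y, hy⟩ := exists_pow hgood (powerful_le hp h) e _ hg
      rw [QuotientGroup.eq, he, Subgroup.mem_bot, inv_mul_eq_one] at hy
      exact cyclic_of_good hG hgood he (y₀ := y) (by rw [hy]; exact hg1) hco
  · exact cyclic_of_good hG (good_of_odd hp hp2) he hy hco

end Main

end Pool.Agent.Helper62.CP
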